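import Mathlib
import Pool.Agent.MP_491dd2_co.AllModuli

/-!
For every `c` and every modulus `p > 4 (100 c + 101) ^ (100 c + 100)` (in particular for all large primes `p`)
there are `A, B ⊆ ℤ / p` with `|A| = |B|` and `|A + B| ≤ 8 |A|` such that for every `ε ≤ 1 / 20` all
`A' ⊆ A`, `B' ⊆ B` with `|A'| ≥ (1 - ε) |A|` and `|B'| ≤ c` satisfy `|A' + B'| < (1 - ε) |A' + B|`.
-/

set_option autoImplicit false

open scoped Pointwise

namespace Pool.Agent.Results.MP_491dd2_co.AllPrimes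

theorem result (c p : ℕ) (hp : 4 * (100 * c + 101) ^ (100 * c + 100) < p) :
    ∃ A B : Finset (ZMod p), A.Nonempty ∧ A.card = B.card ∧ (A + B).card ≤ 8 * A.card ∧
      ∀ ε : ℝ, ε ≤ 1 / 20 → ∀ A' : Finset (ZMod p), A' ⊆ A → ∀ B' : Finset (ZMod p), B' ⊆ B →
        (1 - ε) * (A.card : ℝ) ≤ (A'.card : ℝ) → B'.card ≤ c →
          ((A' + B').card : ℝ) < (1 - ε) * ((A' + B).card : ℝ) := by
  obtain ⟨A, B, hpos, hAB, hdoub, hfail⟩ := Pool.Agent.MP_491dd2_co.counterexample_all c p (by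
    have e : 100 * (c + 1) = 100 * c + 100 := by ring
    rw [e]
    exact hp)
  refine ⟨A, B, Finset.card_pos.1 hpos, hAB, hdoub, ?_⟩
  intro ε hε A' hA' B' hB' h1 h2
  have h3 : (19 : ℝ) * A.card ≤ 20 * A'.card := by
    have h0 : (0 : ℝ) ≤ A.card := Nat.cast_nonneg _
    nlinarith
  have h4 : 19 * A.card ≤ 20 * A'.card := by exact_mod_cast h3
  have h5 := hfail A' hA' B' hB' h4 h2
  have h6 : (20 : ℝ) * (A' + B').card < 19 * (A' + B).card := by exact_mod_cast h5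
  have h0 : (0 : ℝ) ≤ (A' + B).card := Nat.cast_nonneg _
  nlinarith

end Pool.Agent.Results.MP_491dd2_co.AllPrimes
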